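import Pool.Agent.W670.ML.Defs

set_option autoImplicit false

namespace Pool.Agent.W884.ML

open Pool.Agent.W670.ML

theorem one_le_ind {n : ℕ} (g : Equiv.Perm (Fin n)) (hg : g ≠ 1) : 1 ≤ ind g := by
  unfold ind
  have h0 : Multiset.card g.cycleType ≠ 0 := fun h => hg (Equiv.Perm.card_cycleType_eq_zero.mp h)
  have h1 : Multiset.card g.cycleType • 2 ≤ g.cycleType.sum :=
    Multiset.card_nsmul_le_sum (fun x hx => Equiv.Perm.two_le_of_mem_cycleType hx)
  rw [smul_eq_mul] at h1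
  omega

theorem ind_le {n : ℕ} (g : Equiv.Perm (Fin n)) : ind g ≤ n := by
  unfold ind
  have h1 : g.cycleType.sum = g.support.card := Equiv.Perm.sum_cycleType g
  have h2 : g.support.card ≤ n := by
    simpa using Finset.card_le_univ g.support
  omega

theorem mi : Pool.Agent.W670.ML.S_MI := by
  intro n G hn hG
  constructor
  · obtain ⟨g, hg, hg01⟩ := hG ⟨0, by omega⟩ ⟨1, by omega⟩
    have hg1 : g ≠ 1 := by
      rintro rfl
      simp at hg01
    have hne : ∃ k : ℕ, ∃ g ∈ G, g ≠ 1 ∧ k = ind g := ⟨ind g, g, hg, hg1, rfl⟩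
    classical
    refine ⟨Nat.find hne, Nat.find_spec hne, ?_⟩
    intro k hk
    exact Nat.find_min' hne hk
  · intro m hm
    obtain ⟨⟨g, hg, hg1, hmg⟩, hlow⟩ := hm
    refine ⟨?_, ?_, ?_⟩
    · rw [hmg]; exact one_le_ind g hg1
    · rw [hmg]; exact ind_le g
    · intro g' hg' hg1'
      exact hlow ⟨g', hg', hg1', rfl⟩

end Pool.Agent.W884.ML
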